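import Pool.Agent.SH.N.Acy

/-!
# MP_2d0b73_an, III-N, N3: the nerve of `LL S` and the free commutative monoid
-/

set_option autoImplicit false

open CategoryTheory Simplicial Opposite MonoidalCategory

namespace Pool.Agent.SH

/-- Quotients of acyclic simplicial sets by free actions of finite groups are acyclic. -/
def GrpAcy (Pr : MorphismProperty SSet.{0}) : Prop :=
  ∀ (G : Type) [Group G] [Finite G] (V F : SSet.{0}) (a : Act G V) (q : V ⟶ F), a.Free →
    IsQuo a q → Pr (CartesianMonoidalCategory.toUnit V) →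
    Pr (CartesianMonoidalCategory.toUnit F)

/-- N3: `NO (LL S) ⟶ ℕ[NO S]` is an equivalence. -/
theorem pmap_mem (hO : WC_OPEN_Stmt) (hH : WC_HEQ_Stmt) (hU : WC_UACY_Stmt)
    {Pr : MorphismProperty SSet.{0}} (hP : WClass Pr) (hG : GrpAcy Pr)
    {S : Type} [PartialOrder S] [Zero S] (h0 : ∀ s : S, s ≤ 0 → s = 0) : Pr (pmap h0) := by
  refine hO Pr hP _ _ _ fun n b _ => ?_
  obtain ⟨m, l, hl, hlb⟩ := PP.exists_labels (z₀ := c0 S n) b.1 (base_of_mem b)
  refine ⟨NO (PF b.1), phi h0 b.1, ?_, phi_pmap h0 b, fun k a ha e he => phi_open h0 b k a ha e he⟩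
  exact hG (PP.stb l) (NO (PP m)) (NO (PF b.1)) ((PP.actP m).restr (PP.stb l))
    (PP.qP hl hlb) (PP.actP_free l) (PP.qP_isQuo hl hlb) (PP.acyclic hH hU hP m)

/-- The nerve of monotone sequences is Mathlib's nerve. -/
def NOnerve (P : Type) [PartialOrder P] : NO P ≅ nerve P where
  hom := { app := fun n => TypeCat.ofHom (fun x => (oh x).monotone.functor)
           naturality := by
             intro n m θ
             refine ConcreteCategory.hom_ext _ _ fun x => ?_
             exact nerve.ext_of_isThin rfl }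
  inv := { app := fun n => TypeCat.ofHom (fun x =>
    ({ toFun := fun i => x.obj i
       monotone' := fun i j hij => leOfHom (x.map (homOfLE hij)) } : Fin (n.unop.len + 1) →o P)) }
  hom_inv_id := by
    ext n x
    rfl
  inv_hom_id := by
    refine NatTrans.ext (funext fun n => ConcreteCategory.hom_ext _ _ fun x => ?_)
    exact nerve.ext_of_isThin (C := P) rfl

end Pool.Agent.SH
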