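import Pool.Agent.SH.N.Quo
import Pool.Agent.SH.StmtsTE

/-!
# MP_2d0b73_an, III-N: the ordered configurations are acyclic
-/

set_option autoImplicit false

open CategoryTheory Simplicial Opposite MonoidalCategory

namespace Pool.Agent.SH

section hty

variable {P Q : Type} [PartialOrder P] [PartialOrder Q]

/-- The homotopy between the nerves of comparable monotone maps. -/
noncomputable def NOhty (f g : P →o Q) (h : ∀ x, f x ≤ g x) : NO P ⊗ Δ[1] ⟶ NO Q where
  app n := TypeCat.ofHom (fun x =>
    ({ toFun := fun i => if (SSet.stdSimplex.objEquiv x.2).toOrderHom i = 0 then f (oh x.1 i)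
          else g (oh x.1 i)
       monotone' := by
        intro i j hij
        have h1 := (SSet.stdSimplex.objEquiv x.2).toOrderHom.monotone hij
        have h2 := (oh x.1).monotone hij
        dsimp only
        by_cases hj : (SSet.stdSimplex.objEquiv x.2).toOrderHom j = 0
        · have hi : (SSet.stdSimplex.objEquiv x.2).toOrderHom i = 0 := by
            rw [hj] at h1
            exact le_antisymm h1 (Fin.zero_le _)
          rw [if_pos hi, if_pos hj]
          exact f.monotone h2
        · rw [if_neg hj]
          split_ifs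
          · exact (f.monotone h2).trans (h _)
          · exact g.monotone h2 } : Fin (n.unop.len + 1) →o Q))
  naturality n m θ := by
    refine ConcreteCategory.hom_ext _ _ fun x => ?_
    rfl

theorem NOmap_hty (f g : P →o Q) (h : ∀ x, f x ≤ g x) : Hty (NOmap f) (NOmap g) := by
  refine (Hty_iff _ _).2 ⟨NOhty f g h, ?_, ?_⟩
  · ext n x
    rfl
  · ext n x
    rfl

end hty

/-- A poset with a monotone map `g` with `x ≤ g x ≥ c` is acyclic. -/
theorem NO_acyclic (hH : WC_HEQ_Stmt) {Pr : MorphismProperty SSet.{0}} (hP : WClass Pr)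
    {P : Type} [PartialOrder P] (g : P →o P) (c : P) (h1 : ∀ x, x ≤ g x) (h2 : ∀ x, c ≤ g x) :
    Pr (CartesianMonoidalCategory.toUnit (NO P)) := by
  let v : (NO P) _⦋0⦌ := (OrderHom.const (Fin (0 + 1)) c : Fin (0 + 1) →o P)
  let s : 𝟙_ SSet.{0} ⟶ NO P := (SSet.unitHomEquiv (NO P)).symm v
  have e1 : CartesianMonoidalCategory.toUnit (NO P) ≫ s = NOmap (OrderHom.const P c) := by
    ext n x
    rfl
  have e2 : 𝟙 (NO P) = NOmap OrderHom.id := by
    ext n x
    rfl
  refine (hH Pr hP (NO P) (𝟙_ SSet.{0}) (CartesianMonoidalCategory.toUnit (NO P)) s ?_ ?_).1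
  · rw [e1, e2]
    refine Relation.EqvGen.trans _ (NOmap g) _ ?_ ?_
    · exact Relation.EqvGen.rel _ _ (NOmap_hty _ _ h2)
    · exact Relation.EqvGen.symm _ _ (Relation.EqvGen.rel _ _ (NOmap_hty _ _ h1))
  · have : s ≫ CartesianMonoidalCategory.toUnit (NO P) = 𝟙 _ :=
      CartesianMonoidalCategory.toUnit_unique _ _
    rw [this]
    exact Relation.EqvGen.refl _

/-- The nerve of a subset. -/
def NOsIso {P : Type} [PartialOrder P] (U : Set P) : NO U ≅ (NOs U : SSet.{0}) where
  hom := { app := fun n => TypeCat.ofHom (fun x =>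
    (⟨({ toFun := fun i => ((oh x i : U) : P)
         monotone' := fun i j hij => (oh x).monotone hij } : Fin (n.unop.len + 1) →o P),
      fun i => (oh x i).2⟩ : (NOs U).obj n)) }
  inv := { app := fun n => TypeCat.ofHom (fun x =>
    ({ toFun := fun i => ⟨oh x.1 i, x.2 i⟩
       monotone' := fun i j hij => (oh x.1).monotone hij } : Fin (n.unop.len + 1) →o U)) }
  hom_inv_id := by
    ext n x
    rfl
  inv_hom_id := by
    ext n x
    rfl

namespace PP

variable {m : ℕ}

/-- Configurations with times `≤ i`, in standard position at time `i`. -/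
def GG (m i : ℕ) : Set (PP m) :=
  {x | x.J ⊆ Finset.range (i + 1) ∧ (i ∈ x.J → ∀ k, x.a k i = k)}

theorem GG_mono (m : ℕ) : Monotone (GG m) := by
  refine monotone_nat_of_le_succ fun i => ?_
  rintro x ⟨h1, _⟩
  refine ⟨h1.trans (Finset.range_mono (Nat.le_succ _)), fun h => ?_⟩
  have := Finset.mem_range.1 (h1 h)
  omega

theorem exists_GG (x : PP m) : ∃ i, ∀ y : PP m, y.J ⊆ x.J → y ∈ GG m i := by
  obtain ⟨i, hi⟩ := x.J.bddAbove
  refine ⟨i + 1, fun y hy => ⟨fun j hj => ?_, fun h => ?_⟩⟩
  · rw [Finset.mem_range]
    have : j ≤ i := hi (hy hj)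
    omega
  · have : i + 1 ≤ i := hi (hy h)
    omega

/-- Add the time `i` in standard position. -/
noncomputable def gg (i : ℕ) (x : GG m i) : PP m where
  J := insert i x.1.J
  a k := (x.1.a k).update i k
  ne := ⟨i, Finset.mem_insert_self _ _⟩
  sub k := by
    intro j hj
    by_cases hji : j = i
    · subst hji
      exact Finset.mem_insert_self _ _
    · rw [Finsupp.mem_support_iff, Finsupp.coe_update, Function.update_of_ne hji] at hj
      exact Finset.mem_insert_of_mem (x.1.sub k (Finsupp.mem_support_iff.2 hj))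
  inj j hj k l h := by
    by_cases hji : j = i
    · subst hji
      simp only [Finsupp.coe_update, Function.update_self] at h
      exact Fin.ext h
    · simp only [Finsupp.coe_update, Function.update_of_ne hji] at h
      exact x.1.inj j (Finset.mem_of_mem_insert_of_ne hj hji) k l h

theorem gg_mem (i : ℕ) (x : GG m i) : gg i x ∈ GG m i := by
  refine ⟨?_, fun _ k => ?_⟩
  · intro j hj
    rcases Finset.mem_insert.1 hj with rfl | hj
    · exact Finset.self_mem_range_succ _
    · exact x.2.1 hj
  · change (x.1.a k).update i k i = k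
    rw [Finsupp.coe_update, Function.update_self]

/-- `gg` as a monotone map. -/
noncomputable def ggo (m i : ℕ) : GG m i →o GG m i where
  toFun x := ⟨gg i x, gg_mem i x⟩
  monotone' := by
    intro x y h
    refine ⟨Finset.insert_subset_insert _ h.1, fun k => ?_⟩
    ext j
    by_cases hj : j ∈ insert i x.1.J
    · change res (insert i x.1.J) ((y.1.a k).update i k) j = (x.1.a k).update i k j
      rw [res_apply_mem hj, Finsupp.coe_update, Finsupp.coe_update]
      by_cases hji : j = i
      · subst hji
        rw [Function.update_self, Function.update_self]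
      · rw [Function.update_of_ne hji, Function.update_of_ne hji, ← h.2 k]
        rw [res_apply_mem (Finset.mem_of_mem_insert_of_ne hj hji)]
    · change res (insert i x.1.J) ((y.1.a k).update i k) j = (gg i x).a k j
      rw [res_apply_notMem hj]
      symm
      by_contra hne
      exact hj ((gg i x).sub k (Finsupp.mem_support_iff.2 hne))

/-- The configuration at the single time `i`, in standard position. -/
noncomputable def cc (m i : ℕ) : PP m where
  J := {i}
  a k := Finsupp.single i k
  ne := ⟨i, Finset.mem_singleton_self _⟩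
  sub k := Finsupp.support_single_subset
  inj j hj k l h := by
    rw [Finset.mem_singleton] at hj
    subst hj
    rw [Finsupp.single_eq_same, Finsupp.single_eq_same] at h
    exact Fin.ext h

theorem cc_mem (m i : ℕ) : cc m i ∈ GG m i := by
  refine ⟨?_, fun _ k => ?_⟩
  · intro j hj
    rw [show j = i from Finset.mem_singleton.1 hj]
    exact Finset.self_mem_range_succ _
  · change (Finsupp.single i (k : ℕ)) i = k
    rw [Finsupp.single_eq_same]

theorem le_gg (i : ℕ) (x : GG m i) : x ≤ ggo m i x := by
  refine ⟨Finset.subset_insert _ _, fun k => ?_⟩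
  ext j
  by_cases hj : j ∈ x.1.J
  · rw [res_apply_mem hj]
    change (x.1.a k).update i k j = x.1.a k j
    by_cases hji : j = i
    · subst hji
      rw [Finsupp.coe_update, Function.update_self, x.2.2 hj k]
    · rw [Finsupp.coe_update, Function.update_of_ne hji]
  · rw [res_apply_notMem hj]
    symm
    by_contra hne
    exact hj (x.1.sub k (Finsupp.mem_support_iff.2 hne))

theorem cc_le (i : ℕ) (x : GG m i) : (⟨cc m i, cc_mem m i⟩ : GG m i) ≤ ggo m i x := by
  refine ⟨?_, fun k => ?_⟩
  · intro j hj
    rw [show j = i from Finset.mem_singleton.1 hj]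
    exact Finset.mem_insert_self _ _
  · ext j
    change res {i} ((x.1.a k).update i k) j = (Finsupp.single i (k : ℕ)) j
    by_cases hji : j = i
    · subst hji
      rw [res_apply_mem (Finset.mem_singleton_self _), Finsupp.coe_update, Function.update_self,
        Finsupp.single_eq_same]
    · rw [res_apply_notMem (fun h => hji (Finset.mem_singleton.1 h)),
        Finsupp.single_eq_of_ne hji]

theorem GG_acyclic (hH : WC_HEQ_Stmt) {Pr : MorphismProperty SSet.{0}} (hP : WClass Pr)
    (m i : ℕ) : Pr (CartesianMonoidalCategory.toUnit (NOs (GG m i) : SSet.{0})) := by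
  have h1 := NO_acyclic hH hP (ggo m i) ⟨cc m i, cc_mem m i⟩ (le_gg i) (cc_le i)
  have h2 : (NOsIso (GG m i)).inv ≫ CartesianMonoidalCategory.toUnit (NO (GG m i)) =
      CartesianMonoidalCategory.toUnit _ := CartesianMonoidalCategory.toUnit_unique _ _
  rw [← h2]
  exact hP.comp _ _ (hP.iso _ inferInstance) h1

/-- The ordered configurations are acyclic. -/
theorem acyclic (hH : WC_HEQ_Stmt) (hU : WC_UACY_Stmt) {Pr : MorphismProperty SSet.{0}}
    (hP : WClass Pr) (m : ℕ) : Pr (CartesianMonoidalCategory.toUnit (NO (PP m))) := by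
  refine hU Pr hP (NO (PP m))
    ⟨fun i => NOs (GG m i), fun i j hij n x hx k => GG_mono m hij (hx k)⟩ ?_
    (fun i => GG_acyclic hH hP m i)
  rw [← top_le_iff]
  intro n x _
  obtain ⟨i, hi⟩ := exists_GG (oh x (Fin.last _))
  have h1 : x ∈ (NOs (GG m i)).obj n := fun k => hi _ ((oh x).monotone (Fin.le_last k)).1
  exact (le_iSup (fun i => (NOs (GG m i) : (NO (PP m)).Subcomplex)) i) n h1

end PP

end Pool.Agent.SH
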