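import Pool.Agent.SH.N.Lab

/-!
# MP_2d0b73_an, III-N: evaluation of simplex labels
-/

set_option autoImplicit false

open CategoryTheory Simplicial Opposite

namespace Pool.Agent.SH

/-- The constant chain at the base point. -/
def c0 (S : Type) [PartialOrder S] [Zero S] (n : ℕ) : Fin (n + 1) →o S := OrderHom.const _ 0

theorem c0_obj (S : Type) [PartialOrder S] [Zero S] (n : ℕ) (i : Fin (n + 1)) :
    c0 S n i = 0 := rfl

variable {S : Type} [PartialOrder S] [Zero S]

/-- Labels which are `n`-simplices. -/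
abbrev Lz (S : Type) [PartialOrder S] [Zero S] (n : ℕ) : Type := Dsc (Fin (n + 1) →o S) (c0 S n)

theorem Lz.last_ne (h0 : ∀ s : S, s ≤ 0 → s = 0) {n : ℕ} {z : Lz S n} (hz : z ≠ 0) :
    z.v (Fin.last n) ≠ 0 := by
  intro h
  apply hz
  apply Dsc.ext'
  refine OrderHom.ext _ _ (funext fun i => ?_)
  have h1 := z.v.monotone (Fin.le_last i)
  rw [h] at h1
  exact h0 _ h1

/-- Evaluation of the labels at the vertex `j`. -/
noncomputable def ev {n : ℕ} (y : LL (Lz S n)) (j : Fin (n + 1)) : LL S where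
  J := y.J
  C := y.C.mapRange (fun z => z.v j) rfl
  ne := y.ne
  sub := fun a ha => y.sub a (Finsupp.support_mapRange ha)
  inj := fun a ha b hb => y.inj a (Finsupp.support_mapRange ha) b (Finsupp.support_mapRange hb)

theorem ev_J {n : ℕ} (y : LL (Lz S n)) (j : Fin (n + 1)) : (ev y j).J = y.J := rfl

theorem ev_C {n : ℕ} (y : LL (Lz S n)) (j : Fin (n + 1)) (a : ℕ →₀ ℕ) :
    (ev y j).C a = (y.C a).v j := rfl

theorem ev_lb {n : ℕ} (y : LL (Lz S n)) (j : Fin (n + 1)) (a : ℕ →₀ ℕ) :
    (ev y j).lb a = (y.lb a).v j := rfl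

theorem ev_support {n : ℕ} {y : LL (Lz S n)} {j : Fin (n + 1)} {a : ℕ →₀ ℕ}
    (ha : a ∈ (ev y j).C.support) : a ∈ y.C.support := by
  rw [Finsupp.mem_support_iff] at ha ⊢
  intro h
  apply ha
  rw [ev_C, h]
  rfl

theorem ev_le (h0 : ∀ s : S, s ≤ 0 → s = 0) {n : ℕ} {y y' : LL (Lz S n)} {j j' : Fin (n + 1)}
    (h : y ≤ y') (hj : j ≤ j') : ev y j ≤ ev y' j' := by
  refine ⟨h.1, ?_, ?_⟩
  · intro a ha
    have ha' : a ∈ y'.C.support := ev_support ha
    have h1 := LL.lb_eq h ha'
    change (y.lb a).v j ≤ (y'.C a).v j'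
    rw [h1]
    exact OrderHom.monotone _ hj
  · intro b hb
    have hb' : b ∈ y.C.support := ev_support hb
    obtain ⟨a, ha, rfl⟩ := LL.exists_track h hb'
    refine ⟨a, ?_, rfl⟩
    rw [Finsupp.mem_support_iff, ev_C]
    intro h2
    have h1 := LL.lb_eq h ha
    rw [Finsupp.mem_support_iff, ev_C] at hb
    apply hb
    change (y.lb a).v j = 0
    rw [h1]
    have h3 := (y'.C a).v.monotone hj
    rw [h2] at h3
    exact h0 _ h3

/-- The tracks of `ev y n` (last vertex) are the tracks of `y`. -/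
theorem ev_last_support (h0 : ∀ s : S, s ≤ 0 → s = 0) {n : ℕ} (y : LL (Lz S n)) :
    (ev y (Fin.last n)).C.support = y.C.support := by
  ext a
  rw [Finsupp.mem_support_iff, Finsupp.mem_support_iff, ev_C]
  constructor
  · intro h h'
    rw [h'] at h
    exact h rfl
  · intro h
    exact Lz.last_ne h0 h

/-- The configurations with prescribed multiset of simplex labels. -/
structure PF {n : ℕ} (b : (Fin (n + 1) →o S) →₀ ℕ) : Type where
  /-- the configuration -/
  y : LL (Lz S n)
  lab : y.lab = b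

namespace PF

variable {n : ℕ} {b : (Fin (n + 1) →o S) →₀ ℕ}

theorem ext' {x y : PF b} (h : x.y = y.y) : x = y := by
  cases x; cases y; cases h; rfl

instance : PartialOrder (PF b) where
  le x y := x.y ≤ y.y
  le_refl x := le_refl x.y
  le_trans x y z h h' := le_trans (α := LL (Lz S n)) h h'
  le_antisymm x y h h' := ext' (le_antisymm (α := LL (Lz S n)) h h')

theorem le_iff {x y : PF b} : x ≤ y ↔ x.y ≤ y.y := Iff.rfl

end PF

end Pool.Agent.SH
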