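import Pool.Agent.SH.DefsI

/-!
# MP_2d0b73_an, III-N: labels of tracks in `LL S`, evaluation of simplex labels
-/

set_option autoImplicit false

open CategoryTheory Simplicial Opposite

namespace Pool.Agent.SH

namespace LL

variable {S : Type} [PartialOrder S] [Zero S]

/-- The label, in `x`, of the restriction of the track `a`. -/
noncomputable def lb (x : LL S) (a : ℕ →₀ ℕ) : S := x.C (res x.J a)

theorem lb_self {x : LL S} {a : ℕ →₀ ℕ} (ha : a ∈ x.C.support) : x.lb a = x.C a := by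
  rw [lb, res_eq_self (x.sub a ha)]

theorem lb_res {x y : LL S} (h : x.J ⊆ y.J) (a : ℕ →₀ ℕ) : x.lb (res y.J a) = x.lb a := by
  rw [lb, lb, res_res h]

/-- Two tracks of `y` with the same restriction to a nonempty set of times are equal. -/
theorem res_inj {y : LL S} {J : Finset ℕ} (hJ : J.Nonempty) (h : J ⊆ y.J) {a b : ℕ →₀ ℕ}
    (ha : a ∈ y.C.support) (hb : b ∈ y.C.support) (hab : res J a = res J b) : a = b := by
  obtain ⟨j, hj⟩ := hJ
  by_contra hne
  have h7 := DFunLike.congr_fun hab j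
  rw [res_apply_mem hj, res_apply_mem hj] at h7
  exact y.inj a ha b hb hne j (h hj) h7

theorem lb_le_lb {x y z : LL S} (hxy : x ≤ y) (hyz : y ≤ z) {a : ℕ →₀ ℕ} (ha : a ∈ z.C.support) :
    x.lb a ≤ y.lb a := by
  obtain ⟨h1, h2, h3⟩ := hxy
  obtain ⟨h4, h5, h6⟩ := hyz
  by_cases hy : res y.J a ∈ y.C.support
  · have := h2 _ hy
    rw [res_res h1] at this
    exact this
  · have hx : x.C (res x.J a) = 0 := by
      by_contra hne
      obtain ⟨b, hb, hb'⟩ := h3 _ (Finsupp.mem_support_iff.2 hne)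
      obtain ⟨a', ha', rfl⟩ := h6 b hb
      rw [res_res h1] at hb'
      have h8 : a' = a := z.res_inj x.ne (h1.trans h4) ha' ha hb'
      exact hy (h8 ▸ hb)
    rw [lb, lb, hx, Finsupp.notMem_support_iff.1 hy]

/-- Every track of `x ≤ y` is the restriction of a track of `y`. -/
theorem exists_track {x y : LL S} (hxy : x ≤ y) {b : ℕ →₀ ℕ} (hb : b ∈ x.C.support) :
    ∃ a ∈ y.C.support, res x.J a = b := hxy.2.2 b hb

/-- Sums over the tracks of `x ≤ y`. -/
theorem sum_track {M : Type*} [AddCommMonoid M] {x y : LL S} (hxy : x ≤ y)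
    (g : (ℕ →₀ ℕ) → M) [DecidablePred fun a : ℕ →₀ ℕ => x.lb a ≠ 0] :
    ∑ b ∈ x.C.support, g b = ∑ a ∈ y.C.support with x.lb a ≠ 0, g (res x.J a) := by
  symm
  refine Finset.sum_nbij (res x.J) ?_ ?_ ?_ ?_
  · intro a ha
    rw [Finset.mem_filter] at ha
    exact Finsupp.mem_support_iff.2 ha.2
  · intro a ha b hb hab
    rw [Finset.mem_coe, Finset.mem_filter] at ha hb
    exact y.res_inj x.ne hxy.1 ha.1 hb.1 hab
  · intro b hb
    obtain ⟨a, ha, rfl⟩ := exists_track hxy hb
    refine ⟨a, ?_, rfl⟩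
    rw [Finset.mem_coe, Finset.mem_filter]
    exact ⟨ha, Finsupp.mem_support_iff.1 hb⟩
  · intro a _
    rfl

end LL

/-! ### Discrete labels -/

/-- The set `Z` with base point `z₀` and the discrete order. -/
structure Dsc (Z : Type) (z₀ : Z) : Type where
  /-- the underlying element -/
  v : Z

namespace Dsc

variable {Z : Type} {z₀ : Z}

instance : Zero (Dsc Z z₀) := ⟨⟨z₀⟩⟩

theorem zero_v : (0 : Dsc Z z₀).v = z₀ := rfl

theorem ext' {a b : Dsc Z z₀} (h : a.v = b.v) : a = b := by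
  cases a; cases b; cases h; rfl

theorem ne_zero_iff (a : Dsc Z z₀) : a ≠ 0 ↔ a.v ≠ z₀ :=
  ⟨fun h h' => h (ext' h'), fun h h' => h (by rw [h']; rfl)⟩

instance : PartialOrder (Dsc Z z₀) where
  le a b := a = b
  le_refl a := rfl
  le_trans a b c h h' := h.trans h'
  le_antisymm a b h _ := h

theorem le_iff {a b : Dsc Z z₀} : a ≤ b ↔ a = b := Iff.rfl

end Dsc

open Classical in
/-- The multiset of labels. -/
noncomputable def LL.lab {Z : Type} {z₀ : Z} (y : LL (Dsc Z z₀)) : Z →₀ ℕ :=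
  ∑ a ∈ y.C.support, Finsupp.single (y.C a).v 1

theorem LL.lb_eq {Z : Type} {z₀ : Z} {x y : LL (Dsc Z z₀)} (h : x ≤ y) {a : ℕ →₀ ℕ}
    (ha : a ∈ y.C.support) : x.lb a = y.C a := by
  have := lb_le_lb h le_rfl ha
  rw [lb_self ha] at this
  exact this

theorem LL.lab_eq {Z : Type} {z₀ : Z} {x y : LL (Dsc Z z₀)} (h : x ≤ y) : x.lab = y.lab := by
  classical
  rw [lab, lab, sum_track h]
  have h1 : (y.C.support.filter fun a => x.lb a ≠ 0) = y.C.support := by
    refine Finset.filter_true_of_mem fun a ha => ?_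
    rw [lb_eq h ha]
    exact Finsupp.mem_support_iff.1 ha
  rw [h1]
  refine Finset.sum_congr rfl fun a ha => ?_
  have h2 := lb_eq h ha
  rw [lb] at h2
  rw [h2]

end Pool.Agent.SH
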