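import Pool.Agent.SH.N.Pmap

/-!
# MP_2d0b73_an, III-N: open fibres of the map from the nerve of `LL S` to the free monoid
-/

set_option autoImplicit false

open CategoryTheory Simplicial Opposite MonoidalCategory

namespace Pool.Agent.SH

variable {S : Type} [PartialOrder S] [Zero S]

section

variable {n : ℕ} {b : (Fin (n + 1) →o S) →₀ ℕ}

/-- Evaluation of a chain of configurations with simplex labels along `α`. -/
noncomputable def evc (h0 : ∀ s : S, s ≤ 0 → s = 0) {m : ℕ} (y : Fin (m + 1) →o PF b)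
    (α : Fin (m + 1) →o Fin (n + 1)) : Fin (m + 1) →o LL S where
  toFun i := ev (y i).y (α i)
  monotone' _ _ hij := ev_le h0 (y.monotone hij) (α.monotone hij)

theorem evc_apply (h0 : ∀ s : S, s ≤ 0 → s = 0) {m : ℕ} (y : Fin (m + 1) →o PF b)
    (α : Fin (m + 1) →o Fin (n + 1)) (i : Fin (m + 1)) : evc h0 y α i = ev (y i).y (α i) := rfl

theorem chl_evc (h0 : ∀ s : S, s ≤ 0 → s = 0) {m : ℕ} (y : Fin (m + 1) →o PF b)
    (α : Fin (m + 1) →o Fin (n + 1)) {a : ℕ →₀ ℕ}
    (ha : a ∈ (evc h0 y α (Fin.last m)).C.support) :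
    chl (evc h0 y α) a = ((y (Fin.last m)).y.C a).v.comp α := by
  refine OrderHom.ext _ _ (funext fun i => ?_)
  rw [chl_apply _ ha, evc_apply, ev_lb]
  have h1 : (y i).y ≤ (y (Fin.last m)).y := y.monotone (Fin.le_last i)
  rw [LL.lb_eq h1 (ev_support ha)]
  rfl

theorem pfun_evc (h0 : ∀ s : S, s ≤ 0 → s = 0) {m : ℕ} (y : Fin (m + 1) →o PF b)
    (α : Fin (m + 1) →o Fin (n + 1)) [DecidablePred fun c : Fin (m + 1) →o S => c (Fin.last m) ≠ 0] :
    (b.mapDomain fun c => c.comp α).filter (fun c => c (Fin.last m) ≠ 0) =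
      pfun (evc h0 y α) := by
  classical
  conv_lhs => rw [← (y (Fin.last m)).lab]
  rw [LL.lab, Finsupp.mapDomain_finset_sum]
  simp only [Finsupp.mapDomain_single]
  rw [filter_sum_single, pfun]
  have hs : (evc h0 y α (Fin.last m)).C.support = (y (Fin.last m)).y.C.support.filter
      (fun a => (((y (Fin.last m)).y.C a).v.comp α) (Fin.last m) ≠ 0) := by
    ext a
    rw [Finset.mem_filter, Finsupp.mem_support_iff]
    constructor
    · intro h
      exact ⟨ev_support (Finsupp.mem_support_iff.2 h), h⟩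
    · intro h
      exact h.2
  rw [hs]
  refine Finset.sum_congr rfl fun a ha => ?_
  rw [← hs] at ha
  rw [chl_evc h0 y α ha]

/-- The chain `e` is determined by the chain of times and its last configuration. -/
theorem evc_inj (h0 : ∀ s : S, s ≤ 0 → s = 0) {m : ℕ} (y y' : Fin (m + 1) →o PF b)
    (α : Fin (m + 1) →o Fin (n + 1)) (hα : Function.Surjective α)
    (h : evc h0 y α = evc h0 y' α) : y = y' := by
  have hlast : α (Fin.last m) = Fin.last n := by
    obtain ⟨i, hi⟩ := hα (Fin.last n)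
    refine le_antisymm (Fin.le_last _) ?_
    rw [← hi]
    exact α.monotone (Fin.le_last i)
  have hi (i : Fin (m + 1)) : ev (y i).y (α i) = ev (y' i).y (α i) := DFunLike.congr_fun h i
  have hJ (i : Fin (m + 1)) : (y i).y.J = (y' i).y.J := by
    have h1 := congrArg LL.J (hi i)
    exact h1
  have hsupp : (y (Fin.last m)).y.C.support = (y' (Fin.last m)).y.C.support := by
    rw [← ev_last_support h0, ← ev_last_support h0, ← hlast, hi]
  have hle (i : Fin (m + 1)) : (y i).y ≤ (y (Fin.last m)).y := y.monotone (Fin.le_last i)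
  have hle' (i : Fin (m + 1)) : (y' i).y ≤ (y' (Fin.last m)).y := y'.monotone (Fin.le_last i)
  have hC : (y (Fin.last m)).y.C = (y' (Fin.last m)).y.C := by
    ext1 a
    by_cases ha : a ∈ (y (Fin.last m)).y.C.support
    · apply Dsc.ext'
      refine OrderHom.ext _ _ (funext fun j => ?_)
      obtain ⟨i, rfl⟩ := hα j
      have h1 := LL.lb_eq (hle i) ha
      have h2 := LL.lb_eq (hle' i) (hsupp ▸ ha)
      rw [← h1, ← h2]
      have h3 := congrArg (fun x => LL.lb x a) (hi i)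
      exact h3
    · rw [Finsupp.notMem_support_iff.1 ha, Finsupp.notMem_support_iff.1 (hsupp ▸ ha)]
  have hL : (y (Fin.last m)).y = (y' (Fin.last m)).y := LL.ext' (hJ _) hC
  refine OrderHom.ext _ _ (funext fun i => PF.ext' ?_)
  rw [LL.eq_rst (hle i), LL.eq_rst (hle' i)]
  refine LL.ext' (hJ i) ?_
  ext1 c
  rw [LL.rst_C, LL.rst_C, hL, hJ i]

/-- Existence of the lift. -/
theorem evc_surj (h0 : ∀ s : S, s ≤ 0 → s = 0) (hb : b (c0 S n) = 0) {m : ℕ}
    (e : Fin (m + 1) →o LL S) (α : Fin (m + 1) →o Fin (n + 1)) (hα : Function.Surjective α)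
    (h : pfun e = b.mapDomain fun c => c.comp α) : ∃ y : Fin (m + 1) →o PF b, evc h0 y α = e := by
  classical
  have hinj : Function.Injective fun c : Fin (n + 1) →o S => c.comp α := by
    intro c c' hc
    refine OrderHom.ext _ _ (funext fun j => ?_)
    obtain ⟨i, rfl⟩ := hα j
    exact DFunLike.congr_fun hc i
  set L := e (Fin.last m) with hL
  have hz : ∀ a ∈ L.C.support, ∃ z : Fin (n + 1) →o S, z.comp α = chl e a ∧ z ≠ c0 S n := by
    intro a ha
    have h1 : pfun e (chl e a) ≠ 0 := pfun_ne_iff.2 ⟨a, ha, rfl⟩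
    rw [h] at h1
    have h2 := Finsupp.mapDomain_support (Finsupp.mem_support_iff.2 h1)
    obtain ⟨z, hz, hz'⟩ := Finset.mem_image.1 h2
    refine ⟨z, hz', ?_⟩
    rintro rfl
    exact Finsupp.mem_support_iff.1 hz hb
  haveI : Nonempty (Fin (n + 1) →o S) := ⟨c0 S n⟩
  choose! z hz1 hz2 using hz
  let C' : (ℕ →₀ ℕ) →₀ Lz S n := Finsupp.onFinset L.C.support
    (fun a => if a ∈ L.C.support then ⟨z a⟩ else 0) (by
      intro a ha
      by_contra hne
      exact ha (if_neg hne))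
  have hC' (a : ℕ →₀ ℕ) (ha : a ∈ L.C.support) : C' a = ⟨z a⟩ := if_pos ha
  have hsupp : C'.support = L.C.support := by
    ext a
    rw [Finsupp.mem_support_iff]
    constructor
    · intro hne
      by_contra hne'
      exact hne (if_neg hne')
    · intro ha
      rw [hC' a ha, Dsc.ne_zero_iff]
      exact hz2 a ha
  let Y : LL (Lz S n) :=
    { J := L.J
      C := C'
      ne := L.ne
      sub := fun a ha => L.sub a (hsupp ▸ ha)
      inj := fun a ha b hb => L.inj a (hsupp ▸ ha) b (hsupp ▸ hb) }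
  have hYs : Y.C.support = L.C.support := hsupp
  have hlab : Y.lab = b := by
    apply Finsupp.mapDomain_injective hinj
    rw [← h, pfun, LL.lab, Finsupp.mapDomain_finset_sum, hYs]
    refine Finset.sum_congr rfl fun a ha => ?_
    rw [Finsupp.mapDomain_single]
    change Finsupp.single ((C' a).v.comp α) 1 = _
    rw [hC' a ha]
    change Finsupp.single ((z a).comp α) 1 = _
    rw [hz1 a ha]
  have hJ (i : Fin (m + 1)) : (e i).J ⊆ Y.J := (e.monotone (Fin.le_last i)).1
  have hlabi (i : Fin (m + 1)) : (Y.rst (e i).J (hJ i) (e i).ne).lab = b := by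
    rw [LL.lab_eq (Y.rst_le _ (hJ i) (e i).ne), hlab]
  let y : Fin (m + 1) →o PF b :=
    { toFun := fun i => ⟨Y.rst (e i).J (hJ i) (e i).ne, hlabi i⟩
      monotone' := fun i j hij => Y.rst_le_rst (hJ i) _ (hJ j) _ (e.monotone hij).1 }
  refine ⟨y, OrderHom.ext _ _ (funext fun i => ?_)⟩
  refine LL.ext' rfl ?_
  ext1 c
  change ((Y.rstFun (e i).J c).v) (α i) = (e i).C c
  by_cases hc : ∃ a ∈ Y.C.support, res (e i).J a = c
  · obtain ⟨a, ha, rfl⟩ := hc
    rw [Y.rstFun_res (hJ i) (e i).ne ha]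
    have ha' : a ∈ L.C.support := hYs ▸ ha
    change (C' a).v (α i) = _
    rw [hC' a ha']
    have h1 := DFunLike.congr_fun (hz1 a ha') i
    rw [chl_apply e ha'] at h1
    exact h1
  · rw [Y.rstFun_of_not hc]
    by_contra hne
    apply hc
    obtain ⟨a, ha, hac⟩ := LL.exists_track (e.monotone (Fin.le_last i))
      (Finsupp.mem_support_iff.2 fun h' => hne h'.symm)
    exact ⟨a, hYs ▸ ha, hac⟩

end

/-- The maps `F × Δ[n] ⟶ NO (LL S)` over the simplices `b`. -/
noncomputable def phi (h0 : ∀ s : S, s ≤ 0 → s = 0) {n : ℕ} (b : (Fin (n + 1) →o S) →₀ ℕ) :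
    NO (PF b) ⊗ Δ[n] ⟶ NO (LL S) where
  app m := TypeCat.ofHom (fun x => evc h0 (m := m.unop.len) x.1
    (SSet.stdSimplex.objEquiv x.2).toOrderHom)
  naturality m k θ := by
    refine ConcreteCategory.hom_ext _ _ fun x => ?_
    rfl

theorem phi_app (h0 : ∀ s : S, s ≤ 0 → s = 0) {n m : ℕ} (b : (Fin (n + 1) →o S) →₀ ℕ)
    (y : (NO (PF b)).obj (op ⦋m⦌)) (a : ⦋m⦌ ⟶ ⦋n⦌) :
    (phi h0 b).app (op ⦋m⦌) (y, SSet.stdSimplex.objEquiv.symm a) =
      evc h0 (m := m) y a.toOrderHom := rfl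

theorem phi_pmap_aux (h0 : ∀ s : S, s ≤ 0 → s = 0) {n m : ℕ} (b : (Fin (n + 1) →o S) →₀ ℕ)
    (y : Fin (m + 1) →o PF b) (α : Fin (m + 1) →o Fin (n + 1)) (c : Fin (m + 1) →o S) :
    (c (Fin.last m) ≠ 0 → pfun (evc h0 y α) c = (b.mapDomain fun c => c.comp α) c) ∧
      (c (Fin.last m) = 0 → pfun (evc h0 y α) c = 0) := by
  classical
  have h := pfun_evc h0 y α
  have h2 := DFunLike.congr_fun h c
  rw [Finsupp.filter_apply] at h2
  constructor
  · intro hc
    rw [if_pos hc] at h2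
    exact h2.symm
  · intro hc
    rw [if_neg (fun h' => h' hc)] at h2
    exact h2.symm

theorem phi_pmap (h0 : ∀ s : S, s ≤ 0 → s = 0) {n : ℕ} (b : (NN S) _⦋n⦌) :
    phi h0 b.1 ≫ pmap h0 = CartesianMonoidalCategory.snd (NO (PF b.1)) Δ[n] ≫
      SSet.yonedaEquiv.symm b := by
  classical
  ext m x
  refine Subtype.ext (Finsupp.ext fun c => ?_)
  have h := phi_pmap_aux h0 (m := m.unop.len) b.1 x.1 (SSet.stdSimplex.objEquiv x.2).toOrderHom c
  have key : pfun (n := m.unop.len) (evc h0 (m := m.unop.len) x.1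
        (SSet.stdSimplex.objEquiv x.2).toOrderHom) c =
      (Finsupp.filter (fun c => c ∉ (Z0 S).obj m)
        (Finsupp.mapDomain ((NO S).map (SSet.stdSimplex.objEquiv x.2).op) b.1)) c := by
    by_cases hc : c ∉ (Z0 S).obj m
    · refine (h.1 fun h' => hc ((mem_Z0_iff h0 (n := m.unop.len)).2 h')).trans ?_
      exact (Finsupp.filter_apply_pos (fun c => c ∉ (Z0 S).obj m) _ hc).symm
    · refine (h.2 ((mem_Z0_iff h0 (n := m.unop.len)).1 (not_not.1 hc))).trans ?_
      exact (Finsupp.filter_apply_neg (fun c => c ∉ (Z0 S).obj m) _ hc).symm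
  exact key

theorem base_of_mem {n : ℕ} (b : (NN S) _⦋n⦌) : b.1 (c0 S n) = 0 := by
  by_contra h
  exact (b.2.1 _ h).2 (fun i => rfl)

theorem phi_open (h0 : ∀ s : S, s ≤ 0 → s = 0) {n : ℕ} (b : (NN S) _⦋n⦌) (m : ℕ)
    (a : ⦋m⦌ ⟶ ⦋n⦌) (ha : Epi a) (e : (NO (LL S)) _⦋m⦌)
    (he : (pmap h0).app (op ⦋m⦌) e = (NN S).map a.op b) :
    ∃! f : (NO (PF b.1)) _⦋m⦌, (phi h0 b.1).app (op ⦋m⦌) (f, SSet.stdSimplex.objEquiv.symm a) = e := by
  classical
  have hs : Function.Surjective a.toOrderHom := SimplexCategory.epi_iff_surjective.1 ha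
  have h1 : pfun (n := m) e = (b.1).mapDomain fun c => OrderHom.comp (β := Fin (n + 1)) c
      a.toOrderHom := by
    refine Finsupp.ext fun c => ?_
    have h2 := DFunLike.congr_fun (congrArg Subtype.val he) c
    have h3 : pfun (n := m) e c = (Finsupp.filter (fun c => c ∉ (Z0 S).obj (op ⦋m⦌))
        (Finsupp.mapDomain ((NO S).map a.op) b.1)) c := h2
    by_cases hc : c ∉ (Z0 S).obj (op ⦋m⦌)
    · exact h3.trans (Finsupp.filter_apply_pos (fun c => c ∉ (Z0 S).obj (op ⦋m⦌)) _ hc)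
    · refine (h3.trans (Finsupp.filter_apply_neg (fun c => c ∉ (Z0 S).obj (op ⦋m⦌)) _ hc)).trans ?_
      by_contra hne
      obtain ⟨z, hz, hz'⟩ := FM_supp (X := NO S) a.op b.1 c (fun h' => hne h'.symm)
      apply (b.2.1 z hz).2
      intro j
      obtain ⟨i, rfl⟩ := hs j
      have h4 : c ∈ (Z0 S).obj (op ⦋m⦌) := not_not.1 hc
      have h5 := h4 i
      rw [← hz'] at h5
      exact h5
  obtain ⟨y, hy⟩ := evc_surj h0 (base_of_mem b) (m := m) e a.toOrderHom hs h1
  refine ⟨y, hy, fun y' hy' => ?_⟩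
  exact evc_inj h0 (m := m) y' y a.toOrderHom hs (hy'.trans hy.symm)

end Pool.Agent.SH
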