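import Pool.Agent.SH.N.Open

/-!
# MP_2d0b73_an, III-N: ordered configurations, action of the permutations, the quotient map
-/

set_option autoImplicit false

open CategoryTheory Simplicial Opposite MonoidalCategory

namespace Pool.Agent.SH

/-- A simplex of the nerve as a monotone map. -/
def oh {P : Type} [PartialOrder P] {n : SimplexCategoryᵒᵖ} (x : (NO P).obj n) :
    Fin (n.unop.len + 1) →o P := x

theorem oh_ext {P : Type} [PartialOrder P] {n : SimplexCategoryᵒᵖ} {x y : (NO P).obj n}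
    (h : ∀ i, oh x i = oh y i) : x = y := OrderHom.ext (oh x) (oh y) (funext h)

/-- Ordered configurations of `m` particles. -/
structure PP (m : ℕ) : Type where
  /-- the times -/
  J : Finset ℕ
  /-- the tracks -/
  a : Fin m → (ℕ →₀ ℕ)
  ne : J.Nonempty
  sub : ∀ k, (a k).support ⊆ J
  inj : ∀ j ∈ J, ∀ k l, a k j = a l j → k = l

namespace PP

variable {m : ℕ}

theorem ext' {x y : PP m} (hJ : x.J = y.J) (ha : ∀ k, x.a k = y.a k) : x = y := by
  have ha' : x.a = y.a := funext ha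
  cases x; cases y; cases hJ; cases ha'; rfl

instance : PartialOrder (PP m) where
  le x y := x.J ⊆ y.J ∧ ∀ k, res x.J (y.a k) = x.a k
  le_refl x := ⟨Finset.Subset.refl _, fun k => res_eq_self (x.sub k)⟩
  le_trans x y z h h' := ⟨h.1.trans h'.1, fun k => by rw [← res_res h.1, h'.2, h.2]⟩
  le_antisymm x y h h' := by
    have hJ := Finset.Subset.antisymm h.1 h'.1
    refine ext' hJ fun k => ?_
    rw [← h.2 k, hJ, res_eq_self (y.sub k)]

theorem le_iff {x y : PP m} : x ≤ y ↔ x.J ⊆ y.J ∧ ∀ k, res x.J (y.a k) = x.a k := Iff.rfl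

theorem a_inj (x : PP m) {k l : Fin m} (h : x.a k = x.a l) : k = l := by
  obtain ⟨j, hj⟩ := x.ne
  exact x.inj j hj k l (by rw [h])

/-- The action of permutations. -/
def sm (g : Equiv.Perm (Fin m)) (x : PP m) : PP m where
  J := x.J
  a k := x.a (g⁻¹ k)
  ne := x.ne
  sub k := x.sub _
  inj j hj k l h := g⁻¹.injective (x.inj j hj _ _ h)

/-- The action of permutations as monotone maps. -/
def smo (g : Equiv.Perm (Fin m)) : PP m →o PP m where
  toFun := sm g
  monotone' _ _ h := ⟨h.1, fun k => h.2 (g⁻¹ k)⟩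

/-- The action of permutations on the nerve. -/
def actP (m : ℕ) : Act (Equiv.Perm (Fin m)) (NO (PP m)) where
  act g := NOmap (smo g)
  one := by
    ext n x
    refine OrderHom.ext _ _ (funext fun i => ext' rfl fun k => rfl)
  mul g h := by
    ext n x
    refine OrderHom.ext _ _ (funext fun i => ext' rfl fun k => ?_)
    change (oh x i).a ((g * h)⁻¹ k) = (oh x i).a (h⁻¹ (g⁻¹ k))
    rw [mul_inv_rev]
    rfl

/-- The stabiliser of a labelling. -/
def stb {Z : Type} (l : Fin m → Z) : Subgroup (Equiv.Perm (Fin m)) where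
  carrier := {g | ∀ k, l (g k) = l k}
  one_mem' := fun k => rfl
  mul_mem' := by
    intro g h hg hh k
    rw [Equiv.Perm.mul_apply, hg, hh]
  inv_mem' := by
    intro g hg k
    have := hg (g⁻¹ k)
    have e : g (g⁻¹ k) = k := g.apply_symm_apply k
    rw [e] at this
    exact this.symm

theorem mem_stb {Z : Type} {l : Fin m → Z} {g : Equiv.Perm (Fin m)} :
    g ∈ stb l ↔ ∀ k, l (g k) = l k := Iff.rfl

theorem ap_apply {Z : Type} (l : Fin m → Z) (g : stb l) {n : SimplexCategoryᵒᵖ}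
    (x : (NO (PP m)).obj n) (i : Fin (n.unop.len + 1)) :
    oh (((actP m).restr (stb l)).ap g x) i = sm g.1 (oh x i) := rfl

theorem actP_free {Z : Type} (l : Fin m → Z) : ((actP m).restr (stb l)).Free := by
  intro n x g h
  have h1 : oh (((actP m).restr (stb l)).ap g x) 0 = oh x 0 := by rw [h]
  rw [ap_apply] at h1
  apply Subtype.ext
  have h2 : g.1⁻¹ = 1 := by
    ext1 k
    have h3 : (sm g.1 (oh x 0)).a k = (oh x 0).a k := by rw [h1]
    exact PP.a_inj _ h3
  exact inv_eq_one.1 h2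

/-! ### The quotient map -/

variable {Z : Type} {z₀ : Z}

open Classical in
/-- The label of the track `c`. -/
noncomputable def cfun (l : Fin m → Z) (x : PP m) (c : ℕ →₀ ℕ) : Dsc Z z₀ :=
  if h : ∃ k, x.a k = c then ⟨l h.choose⟩ else 0

theorem cfun_a (l : Fin m → Z) (x : PP m) (k : Fin m) :
    (cfun l x (x.a k) : Dsc Z z₀) = ⟨l k⟩ := by
  have h : ∃ k', x.a k' = x.a k := ⟨k, rfl⟩
  rw [cfun, dif_pos h, x.a_inj h.choose_spec]

theorem cfun_not (l : Fin m → Z) (x : PP m) {c : ℕ →₀ ℕ} (h : ¬ ∃ k, x.a k = c) :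
    (cfun l x c : Dsc Z z₀) = 0 := by
  rw [cfun, dif_neg h]

open Classical in
/-- The configuration of `x` with labels `l`. -/
noncomputable def cf (l : Fin m → Z) (x : PP m) : LL (Dsc Z z₀) where
  J := x.J
  C := Finsupp.onFinset (Finset.univ.image x.a) (cfun l x) (by
    intro c hc
    by_contra hne
    apply hc
    apply cfun_not
    rintro ⟨k, rfl⟩
    exact hne (Finset.mem_image_of_mem _ (Finset.mem_univ _)))
  ne := x.ne
  sub := by
    intro c hc
    obtain ⟨k, _, rfl⟩ := Finset.mem_image.1 (Finsupp.support_onFinset_subset hc)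
    exact x.sub k
  inj := by
    intro c hc d hd hcd j hj h
    obtain ⟨k, _, rfl⟩ := Finset.mem_image.1 (Finsupp.support_onFinset_subset hc)
    obtain ⟨k', _, rfl⟩ := Finset.mem_image.1 (Finsupp.support_onFinset_subset hd)
    exact hcd (by rw [x.inj j hj k k' h])

theorem cf_J (l : Fin m → Z) (x : PP m) : (cf l x : LL (Dsc Z z₀)).J = x.J := rfl

theorem cf_C (l : Fin m → Z) (x : PP m) (c : ℕ →₀ ℕ) :
    (cf l x : LL (Dsc Z z₀)).C c = cfun l x c := rfl

theorem mem_cf {l : Fin m → Z} (hl : ∀ k, l k ≠ z₀) {x : PP m} {c : ℕ →₀ ℕ} :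
    c ∈ (cf l x : LL (Dsc Z z₀)).C.support ↔ ∃ k, x.a k = c := by
  rw [Finsupp.mem_support_iff, cf_C]
  constructor
  · intro h
    by_contra hne
    exact h (cfun_not l x hne)
  · rintro ⟨k, rfl⟩
    rw [cfun_a, Dsc.ne_zero_iff]
    exact hl k

theorem cf_le {l : Fin m → Z} (hl : ∀ k, l k ≠ z₀) {x y : PP m} (h : x ≤ y) :
    (cf l x : LL (Dsc Z z₀)) ≤ cf l y := by
  refine ⟨h.1, ?_, ?_⟩
  · intro c hc
    obtain ⟨k, rfl⟩ := (mem_cf hl).1 hc
    apply Dsc.le_iff.2
    rw [cf_J, h.2 k, cf_C, cf_C, cfun_a, cfun_a]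
  · intro c hc
    obtain ⟨k, rfl⟩ := (mem_cf hl).1 hc
    exact ⟨y.a k, (mem_cf hl).2 ⟨k, rfl⟩, h.2 k⟩

theorem cf_lab {l : Fin m → Z} (hl : ∀ k, l k ≠ z₀) (x : PP m) :
    (cf l x : LL (Dsc Z z₀)).lab = ∑ k, Finsupp.single (l k) 1 := by
  classical
  rw [LL.lab]
  symm
  refine Finset.sum_nbij x.a ?_ ?_ ?_ ?_
  · intro k _
    exact (mem_cf hl).2 ⟨k, rfl⟩
  · intro k _ k' _ h
    exact x.a_inj h
  · intro c hc
    obtain ⟨k, rfl⟩ := (mem_cf hl).1 hc
    exact ⟨k, Finset.mem_coe.2 (Finset.mem_univ _), rfl⟩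
  · intro k _
    rw [cf_C, cfun_a]

end PP

end Pool.Agent.SH
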