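import Pool.Agent.SH.N.Rst
import Pool.Agent.SH.DefsN

/-!
# MP_2d0b73_an, III-N: the map from the nerve of `LL S` to the free monoid on the nerve of `S`
-/

set_option autoImplicit false

open CategoryTheory Simplicial Opposite

namespace Pool.Agent.SH

variable {S : Type} [PartialOrder S] [Zero S]

open Classical in
/-- The chain of labels of the track `a`. -/
noncomputable def chl {n : ℕ} (x : Fin (n + 1) →o LL S) (a : ℕ →₀ ℕ) : Fin (n + 1) →o S :=
  if h : Monotone fun i => (x i).lb a then ⟨_, h⟩ else c0 S n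

theorem chl_apply {n : ℕ} (x : Fin (n + 1) →o LL S) {a : ℕ →₀ ℕ}
    (ha : a ∈ (x (Fin.last n)).C.support) (i : Fin (n + 1)) : chl x a i = (x i).lb a := by
  have h : Monotone fun i => (x i).lb a := fun i j hij =>
    LL.lb_le_lb (x.monotone hij) (x.monotone (Fin.le_last j)) ha
  rw [chl, dif_pos h]
  rfl

theorem chl_last {n : ℕ} (x : Fin (n + 1) →o LL S) {a : ℕ →₀ ℕ}
    (ha : a ∈ (x (Fin.last n)).C.support) : chl x a (Fin.last n) ≠ 0 := by
  rw [chl_apply x ha, LL.lb_self ha]
  exact Finsupp.mem_support_iff.1 ha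

/-- The multiset of label chains. -/
noncomputable def pfun {n : ℕ} (x : Fin (n + 1) →o LL S) : (Fin (n + 1) →o S) →₀ ℕ :=
  ∑ a ∈ (x (Fin.last n)).C.support, Finsupp.single (chl x a) 1

theorem pfun_ne {n : ℕ} {x : Fin (n + 1) →o LL S} {c : Fin (n + 1) →o S} (h : pfun x c ≠ 0) :
    ∃ a ∈ (x (Fin.last n)).C.support, chl x a = c := by
  classical
  by_contra hc
  push Not at hc
  apply h
  rw [pfun, Finsupp.finsetSum_apply]
  refine Finset.sum_eq_zero fun a ha => ?_
  rw [Finsupp.single_apply, if_neg (hc a ha)]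

theorem pfun_ne_iff {n : ℕ} {x : Fin (n + 1) →o LL S} {c : Fin (n + 1) →o S} :
    pfun x c ≠ 0 ↔ ∃ a ∈ (x (Fin.last n)).C.support, chl x a = c := by
  classical
  refine ⟨pfun_ne, ?_⟩
  rintro ⟨a, ha, rfl⟩
  rw [pfun, Finsupp.finsetSum_apply]
  have h1 : 1 ≤ ∑ i ∈ (x (Fin.last n)).C.support, (Finsupp.single (chl x i) 1) (chl x a) := by
    refine le_trans ?_ (Finset.single_le_sum
      (f := fun i => (Finsupp.single (chl x i) 1) (chl x a)) (fun i _ => Nat.zero_le _) ha)
    simp
  omega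

/-- The subcomplex of the base point. -/
abbrev Z0 (S : Type) [PartialOrder S] [Zero S] : (NO S).Subcomplex := NOs {0}

theorem notMem_Z0 {n : ℕ} {c : Fin (n + 1) →o S} (h : c (Fin.last n) ≠ 0) :
    c ∉ (Z0 S).obj (op ⦋n⦌) := fun h' => h (h' (Fin.last n))

theorem mem_Z0_iff (h0 : ∀ s : S, s ≤ 0 → s = 0) {n : ℕ} {c : Fin (n + 1) →o S} :
    c ∈ (Z0 S).obj (op ⦋n⦌) ↔ c (Fin.last n) = 0 := by
  refine ⟨fun h => h (Fin.last n), fun h i => h0 _ ?_⟩
  rw [← h]
  exact c.monotone (Fin.le_last i)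

/-- The free commutative monoid on the nerve of `S`, with the base point as zero. -/
noncomputable abbrev NN (S : Type) [PartialOrder S] [Zero S] : SSet.{0} :=
  FM ℕ (⊤ : AddSubmonoid ℕ) (X := NO S) ⊤ ⊤ (Z0 S)

theorem filter_sum_single {α β : Type} (s : Finset α) (g : α → β) (P : β → Prop) [DecidablePred P]
    [DecidablePred fun a => P (g a)] :
    (∑ a ∈ s, Finsupp.single (g a) 1).filter P =
      ∑ a ∈ s with P (g a), (Finsupp.single (g a) 1 : β →₀ ℕ) := by
  classical
  induction s using Finset.induction_on with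
  | empty => exact Finsupp.filter_zero P
  | insert a s ha ih =>
    rw [Finset.sum_insert ha, Finsupp.filter_add, ih, Finset.filter_insert]
    by_cases h : P (g a)
    · rw [if_pos h, Finset.sum_insert (by simp [ha]), Finsupp.filter_single_of_pos _ h]
    · rw [if_neg h, Finsupp.filter_single_of_neg _ h, zero_add]

theorem pfun_nat (h0 : ∀ s : S, s ≤ 0 → s = 0) {n m : ℕ} (x : Fin (n + 1) →o LL S)
    (θ : Fin (m + 1) →o Fin (n + 1)) [DecidablePred fun c : Fin (m + 1) →o S => c (Fin.last m) ≠ 0] :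
    ((pfun x).mapDomain fun c => c.comp θ).filter (fun c => c (Fin.last m) ≠ 0) =
      pfun (x.comp θ) := by
  classical
  rw [pfun, Finsupp.mapDomain_finset_sum]
  simp only [Finsupp.mapDomain_single]
  rw [filter_sum_single]
  have hle : x (θ (Fin.last m)) ≤ x (Fin.last n) := x.monotone (Fin.le_last _)
  rw [pfun]
  change _ = ∑ a ∈ (x (θ (Fin.last m))).C.support, Finsupp.single (chl (x.comp θ) a) 1
  rw [LL.sum_track hle, Finset.sum_filter, Finset.sum_filter]
  refine Finset.sum_congr rfl fun a ha => ?_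
  have hiff : (((chl x a).comp θ) (Fin.last m) ≠ 0) ↔ (x (θ (Fin.last m))).lb a ≠ 0 := by
    change ¬ chl x a (θ (Fin.last m)) = 0 ↔ _
    rw [chl_apply x ha]
  by_cases h : (x (θ (Fin.last m))).lb a ≠ 0
  · rw [if_pos h, if_pos (hiff.2 h)]
    congr 1
    refine OrderHom.ext _ _ (funext fun i => ?_)
    have hmem : res (x (θ (Fin.last m))).J a ∈ ((x.comp θ) (Fin.last m)).C.support :=
      Finsupp.mem_support_iff.2 h
    rw [chl_apply _ hmem]
    change chl x a (θ i) = (x (θ i)).lb (res (x (θ (Fin.last m))).J a)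
    rw [chl_apply x ha, LL.lb_res]
    exact (x.monotone (θ.monotone (Fin.le_last i))).1
  · rw [if_neg h, if_neg (fun h' => h (hiff.1 h'))]

theorem pfun_nat' (h0 : ∀ s : S, s ≤ 0 → s = 0) {n m : ℕ} (x : Fin (n + 1) →o LL S)
    (θ : Fin (m + 1) →o Fin (n + 1)) (c : Fin (m + 1) →o S) :
    (c (Fin.last m) ≠ 0 → pfun (x.comp θ) c = (pfun x).mapDomain (fun c => c.comp θ) c) ∧
      (c (Fin.last m) = 0 → pfun (x.comp θ) c = 0) := by
  classical
  have h := pfun_nat h0 x θ
  have h2 := DFunLike.congr_fun h c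
  rw [Finsupp.filter_apply] at h2
  constructor
  · intro hc
    rw [if_pos hc] at h2
    exact h2.symm
  · intro hc
    rw [if_neg (fun h' => h' hc)] at h2
    exact h2.symm

/-- The map from the nerve of `LL S` to the free monoid on the nerve of `S`. -/
noncomputable def pmap (h0 : ∀ s : S, s ≤ 0 → s = 0) : NO (LL S) ⟶ NN S where
  app n := TypeCat.ofHom (fun x => ⟨pfun (n := n.unop.len) x, by
    refine ⟨fun c hc => ⟨trivial, ?_⟩, fun _ _ => trivial⟩
    obtain ⟨a, ha, rfl⟩ := pfun_ne hc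
    exact notMem_Z0 (chl_last x ha)⟩)
  naturality n m θ := by
    classical
    refine ConcreteCategory.hom_ext _ _ fun x => Subtype.ext (Finsupp.ext fun c => ?_)
    have h := pfun_nat' h0 (n := n.unop.len) (m := m.unop.len) x θ.unop.toOrderHom c
    have key : pfun (n := m.unop.len) (OrderHom.comp (β := Fin (n.unop.len + 1)) x
        θ.unop.toOrderHom) c =
        (Finsupp.filter (fun c => c ∉ (Z0 S).obj m)
          (Finsupp.mapDomain ((NO S).map θ) (pfun (n := n.unop.len) x))) c := by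
      rw [Finsupp.filter_apply]
      by_cases hc : c ∉ (Z0 S).obj m
      · rw [if_pos hc]
        exact h.1 fun h' => hc ((mem_Z0_iff h0 (n := m.unop.len)).2 h')
      · rw [if_neg hc]
        exact h.2 ((mem_Z0_iff h0 (n := m.unop.len)).1 (not_not.1 hc))
    exact key

theorem pmap_fn (h0 : ∀ s : S, s ≤ 0 → s = 0) {n : ℕ} (x : (NO (LL S)).obj (op ⦋n⦌)) :
    ((pmap h0).app (op ⦋n⦌) x).1 = pfun (n := n) x := rfl

end Pool.Agent.SH
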