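import Pool.Agent.SH.N.PP

/-!
# MP_2d0b73_an, III-N: the fibre is the quotient of the ordered configurations
-/

set_option autoImplicit false

open CategoryTheory Simplicial Opposite MonoidalCategory

namespace Pool.Agent.SH

namespace PP

variable {m : ℕ} {Z : Type} {z₀ : Z}

theorem exists_enum {α : Type} (s : Finset α) (f : α → Z) (l : Fin m → Z)
    (h : ∑ a ∈ s, Finsupp.single (f a) 1 = ∑ k, (Finsupp.single (l k) 1 : Z →₀ ℕ)) :
    ∃ e : Fin m ≃ s, ∀ k, f (e k) = l k := by
  classical
  have hcard (z : Z) : Fintype.card {k : Fin m // l k = z} =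
      Fintype.card {a : s // f a = z} := by
    have h1 := DFunLike.congr_fun h z
    rw [Finsupp.finsetSum_apply, Finsupp.finsetSum_apply] at h1
    simp only [Finsupp.single_apply] at h1
    rw [Finset.sum_boole, Finset.sum_boole] at h1
    rw [Fintype.card_subtype, Fintype.card_subtype]
    have h2 : (Finset.univ.filter fun a : s => f a = z).card = (s.filter fun a => f a = z).card := by
      rw [Finset.univ_eq_attach, ← Finset.card_map (Function.Embedding.subtype _)]
      congr 1
      ext a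
      simp
      tauto
    rw [h2]
    exact_mod_cast h1.symm
  refine ⟨Equiv.ofFiberEquiv (f := l) (g := fun a : s => f a) fun z =>
    Fintype.equivOfCardEq (hcard z), fun k => ?_⟩
  exact Equiv.ofFiberEquiv_map (f := l) (g := fun a : s => f a) _ k

/-- Restriction of an ordered configuration. -/
noncomputable def rs (x : PP m) (J' : Finset ℕ) (h1 : J' ⊆ x.J) (h2 : J'.Nonempty) : PP m where
  J := J'
  a k := res J' (x.a k)
  ne := h2
  sub k := support_res _ _
  inj j hj k l h := by
    rw [res_apply_mem hj, res_apply_mem hj] at h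
    exact x.inj j (h1 hj) k l h

variable {S : Type} [PartialOrder S] [Zero S]

section

variable {n : ℕ} {b : (Fin (n + 1) →o S) →₀ ℕ} {l : Fin m → (Fin (n + 1) →o S)}

/-- The quotient map. -/
noncomputable def qmo (hl : ∀ k, l k ≠ c0 S n) (hb : ∑ k, Finsupp.single (l k) 1 = b) :
    PP m →o PF b where
  toFun x := ⟨cf l x, by rw [cf_lab hl, hb]⟩
  monotone' _ _ h := cf_le hl h

theorem qmo_y (hl : ∀ k, l k ≠ c0 S n) (hb : ∑ k, Finsupp.single (l k) 1 = b) (x : PP m) :
    (qmo hl hb x).y = cf l x := rfl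

/-- The quotient map on nerves. -/
noncomputable def qP (hl : ∀ k, l k ≠ c0 S n) (hb : ∑ k, Finsupp.single (l k) 1 = b) :
    NO (PP m) ⟶ NO (PF b) := NOmap (qmo hl hb)

theorem qP_apply (hl : ∀ k, l k ≠ c0 S n) (hb : ∑ k, Finsupp.single (l k) 1 = b)
    {r : SimplexCategoryᵒᵖ} (x : (NO (PP m)).obj r) (i : Fin (r.unop.len + 1)) :
    oh ((qP hl hb).app r x) i = qmo hl hb (oh x i) := rfl

theorem cf_rs (hl : ∀ k, l k ≠ c0 S n) (x : PP m) (y : LL (Lz S n)) (h : cf l x = y) (J' : Finset ℕ)
    (h1 : J' ⊆ x.J) (h2 : J'.Nonempty) (h3 : J' ⊆ y.J) :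
    cf l (x.rs J' h1 h2) = y.rst J' h3 h2 := by
  subst h
  refine LL.ext' rfl ?_
  ext1 c
  rw [LL.rst_C, cf_C]
  by_cases hc : ∃ k, (x.rs J' h1 h2).a k = c
  · obtain ⟨k, rfl⟩ := hc
    rw [cfun_a]
    change _ = (cf l x).rstFun J' (res J' (x.a k))
    rw [LL.rstFun_res _ h1 h2 ((mem_cf hl).2 ⟨k, rfl⟩), cf_C, cfun_a]
  · rw [cfun_not _ _ hc, LL.rstFun_of_not]
    rintro ⟨a, ha, rfl⟩
    obtain ⟨k, rfl⟩ := (mem_cf hl).1 ha
    exact hc ⟨k, rfl⟩

theorem qP_surj (hl : ∀ k, l k ≠ c0 S n) (hb : ∑ k, Finsupp.single (l k) 1 = b)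
    (r : SimplexCategoryᵒᵖ) : Function.Surjective ((qP hl hb).app r) := by
  classical
  intro y
  set L : LL (Lz S n) := (oh y (Fin.last _)).y with hL
  obtain ⟨e, he⟩ := exists_enum L.C.support (fun a => (L.C a).v) l
    (((oh y (Fin.last _)).lab.trans hb.symm))
  let X : PP m :=
    { J := L.J
      a := fun k => (e k).1
      ne := L.ne
      sub := fun k => L.sub _ (e k).2
      inj := fun j hj k k' h => by
        by_contra hne
        exact L.inj _ (e k).2 _ (e k').2 (fun h' => hne (e.injective (Subtype.ext h'))) j hj h }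
  have hX : cf l X = L := by
    refine LL.ext' rfl ?_
    ext1 c
    rw [cf_C]
    by_cases hc : ∃ k, X.a k = c
    · obtain ⟨k, rfl⟩ := hc
      rw [cfun_a]
      exact Dsc.ext' (he k).symm
    · rw [cfun_not _ _ hc]
      by_contra hne
      have hc' : c ∈ L.C.support := Finsupp.mem_support_iff.2 fun h => hne h.symm
      apply hc
      refine ⟨e.symm ⟨c, hc'⟩, ?_⟩
      change (e (e.symm ⟨c, hc'⟩)).1 = c
      rw [Equiv.apply_symm_apply]
  have hle (i : Fin (r.unop.len + 1)) : (oh y i).y ≤ L := (oh y).monotone (Fin.le_last i)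
  let x : Fin (r.unop.len + 1) →o PP m :=
    { toFun := fun i => X.rs (oh y i).y.J (hle i).1 (oh y i).y.ne
      monotone' := fun i j hij => by
        have h1 : (oh y i).y.J ⊆ (oh y j).y.J := ((oh y).monotone hij).1
        exact ⟨h1, fun k => res_res h1 _⟩ }
  refine ⟨x, oh_ext fun i => ?_⟩
  refine PF.ext' ?_
  rw [LL.eq_rst (hle i)]
  exact cf_rs hl X L hX (oh y i).y.J (hle i).1 (oh y i).y.ne (hle i).1

theorem qP_fib (hl : ∀ k, l k ≠ c0 S n) (hb : ∑ k, Finsupp.single (l k) 1 = b)
    (r : SimplexCategoryᵒᵖ) (x y : (NO (PP m)).obj r) :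
    (qP hl hb).app r x = (qP hl hb).app r y ↔ ∃ g, ((actP m).restr (stb l)).ap g x = y := by
  classical
  constructor
  · intro h
    have hi (i : Fin (r.unop.len + 1)) : (cf l (oh x i) : LL (Lz S n)) = cf l (oh y i) := by
      have h1 : oh ((qP hl hb).app r x) i = oh ((qP hl hb).app r y) i := by rw [h]
      exact congrArg PF.y h1
    have hJ (i : Fin (r.unop.len + 1)) : (oh x i).J = (oh y i).J := by
      have h1 := congrArg LL.J (hi i)
      exact h1
    have hex : ∀ k, ∃ k', (oh y (Fin.last _)).a k' = (oh x (Fin.last _)).a k := by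
      intro k
      have h1 : (oh x (Fin.last _)).a k ∈ (cf l (oh x (Fin.last _)) : LL (Lz S n)).C.support :=
        (mem_cf hl).2 ⟨k, rfl⟩
      rw [hi] at h1
      exact (mem_cf hl).1 h1
    choose s hs using hex
    have hsi : Function.Injective s := by
      intro k k' hk
      apply (oh x (Fin.last _)).a_inj
      rw [← hs k, ← hs k', hk]
    let g : Equiv.Perm (Fin m) := Equiv.ofBijective s (Finite.injective_iff_bijective.1 hsi)
    have hg : g ∈ stb l := by
      intro k
      have h1 : (cf l (oh x (Fin.last _)) : LL (Lz S n)).C ((oh x (Fin.last _)).a k) =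
          (cf l (oh y (Fin.last _)) : LL (Lz S n)).C ((oh y (Fin.last _)).a (s k)) := by
        rw [hs k, hi]
      rw [cf_C, cf_C, cfun_a, cfun_a] at h1
      exact (congrArg Dsc.v h1).symm
    refine ⟨⟨g, hg⟩, oh_ext fun i => ?_⟩
    rw [ap_apply]
    refine ext' (hJ i) fun k => ?_
    have hx := ((oh x).monotone (Fin.le_last i)).2 (g⁻¹ k)
    have hy := ((oh y).monotone (Fin.le_last i)).2 k
    change (oh x i).a (g⁻¹ k) = (oh y i).a k
    rw [← hx, ← hy, hJ i, ← hs (g⁻¹ k)]
    have e : s (g⁻¹ k) = k := g.apply_symm_apply k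
    rw [e]
  · rintro ⟨g, rfl⟩
    refine oh_ext fun i => PF.ext' ?_
    rw [qP_apply, qP_apply, ap_apply, qmo_y, qmo_y]
    refine LL.ext' rfl ?_
    ext1 c
    rw [cf_C, cf_C]
    by_cases hc : ∃ k, (oh x i).a k = c
    · obtain ⟨k, rfl⟩ := hc
      rw [cfun_a]
      have h1 : (sm g.1 (oh x i)).a (g.1 k) = (oh x i).a k := by
        change (oh x i).a (g.1⁻¹ (g.1 k)) = _
        have e : g.1⁻¹ (g.1 k) = k := g.1.symm_apply_apply k
        rw [e]
      rw [← h1, cfun_a]
      exact Dsc.ext' (g.2 k).symm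
    · rw [cfun_not _ _ hc, cfun_not]
      rintro ⟨k, rfl⟩
      exact hc ⟨g.1⁻¹ k, rfl⟩

/-- The fibre is the quotient of the ordered configurations by the stabiliser of the labelling. -/
theorem qP_isQuo (hl : ∀ k, l k ≠ c0 S n) (hb : ∑ k, Finsupp.single (l k) 1 = b) :
    IsQuo ((actP m).restr (stb l)) (qP hl hb) :=
  ⟨qP_surj hl hb, qP_fib hl hb⟩

end

/-- Every multiset of nonzero labels has an enumeration. -/
theorem exists_labels (b : Z →₀ ℕ) (hb : b z₀ = 0) :
    ∃ (m : ℕ) (l : Fin m → Z), (∀ k, l k ≠ z₀) ∧ ∑ k, Finsupp.single (l k) 1 = b := by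
  classical
  induction b using Finsupp.induction with
  | zero => exact ⟨0, Fin.elim0, fun k => k.elim0, by simp⟩
  | single_add z c f hz hc ih =>
    have h1 : f z₀ = 0 := by
      rw [Finsupp.add_apply] at hb
      omega
    have h2 : z ≠ z₀ := by
      rintro rfl
      rw [Finsupp.add_apply, Finsupp.single_eq_same] at hb
      omega
    obtain ⟨m, l, hl, hs⟩ := ih h1
    refine ⟨c + m, Fin.append (fun _ => z) l, ?_, ?_⟩
    · intro k
      refine Fin.addCases (fun i => ?_) (fun i => ?_) k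
      · rw [Fin.append_left]
        exact h2
      · rw [Fin.append_right]
        exact hl i
    · rw [Fin.sum_univ_add]
      simp only [Fin.append_left, Fin.append_right]
      rw [hs, Finset.sum_const, Finset.card_univ, Fintype.card_fin, Finsupp.smul_single]
      simp

end PP

end Pool.Agent.SH
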