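import Pool.Agent.SH.N.Ev

/-!
# MP_2d0b73_an, III-N: restriction of configurations with discrete labels
-/

set_option autoImplicit false

open CategoryTheory Simplicial Opposite

namespace Pool.Agent.SH

namespace LL

variable {Z : Type} {z₀ : Z}

open Classical in
/-- The label of the restricted track `c`. -/
noncomputable def rstFun (y : LL (Dsc Z z₀)) (J' : Finset ℕ) (c : ℕ →₀ ℕ) : Dsc Z z₀ :=
  if h : ∃ a ∈ y.C.support, res J' a = c then y.C h.choose else 0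

theorem rstFun_res (y : LL (Dsc Z z₀)) {J' : Finset ℕ} (h1 : J' ⊆ y.J) (h2 : J'.Nonempty)
    {a : ℕ →₀ ℕ} (ha : a ∈ y.C.support) : y.rstFun J' (res J' a) = y.C a := by
  have h : ∃ a' ∈ y.C.support, res J' a' = res J' a := ⟨a, ha, rfl⟩
  rw [rstFun, dif_pos h]
  have h3 := y.res_inj h2 h1 h.choose_spec.1 ha h.choose_spec.2
  rw [h3]

theorem rstFun_of_not (y : LL (Dsc Z z₀)) {J' : Finset ℕ} {c : ℕ →₀ ℕ}
    (h : ¬ ∃ a ∈ y.C.support, res J' a = c) : y.rstFun J' c = 0 := by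
  rw [rstFun, dif_neg h]

open Classical in
/-- Restriction to a smaller set of times. -/
noncomputable def rst (y : LL (Dsc Z z₀)) (J' : Finset ℕ) (h1 : J' ⊆ y.J) (h2 : J'.Nonempty) :
    LL (Dsc Z z₀) where
  J := J'
  C := Finsupp.onFinset (y.C.support.image (res J')) (y.rstFun J') (by
    intro c hc
    by_contra hne
    apply hc
    apply rstFun_of_not
    rintro ⟨a, ha, rfl⟩
    exact hne (Finset.mem_image_of_mem _ ha))
  ne := h2
  sub := by
    intro c hc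
    have h3 := Finsupp.support_onFinset_subset hc
    obtain ⟨a, _, rfl⟩ := Finset.mem_image.1 h3
    exact support_res _ _
  inj := by
    intro c hc d hd hcd j hj
    obtain ⟨a, ha, rfl⟩ := Finset.mem_image.1 (Finsupp.support_onFinset_subset hc)
    obtain ⟨b, hb, rfl⟩ := Finset.mem_image.1 (Finsupp.support_onFinset_subset hd)
    rw [res_apply_mem hj, res_apply_mem hj]
    exact y.inj a ha b hb (fun h => hcd (by rw [h])) j (h1 hj)

theorem rst_J (y : LL (Dsc Z z₀)) (J' : Finset ℕ) (h1 : J' ⊆ y.J) (h2 : J'.Nonempty) :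
    (y.rst J' h1 h2).J = J' := rfl

theorem rst_C (y : LL (Dsc Z z₀)) (J' : Finset ℕ) (h1 : J' ⊆ y.J) (h2 : J'.Nonempty)
    (c : ℕ →₀ ℕ) : (y.rst J' h1 h2).C c = y.rstFun J' c := rfl

theorem mem_rst {y : LL (Dsc Z z₀)} {J' : Finset ℕ} {h1 : J' ⊆ y.J} {h2 : J'.Nonempty}
    {c : ℕ →₀ ℕ} : c ∈ (y.rst J' h1 h2).C.support ↔ ∃ a ∈ y.C.support, res J' a = c := by
  constructor
  · intro hc
    by_contra hne
    rw [Finsupp.mem_support_iff] at hc
    exact hc (y.rstFun_of_not hne)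
  · rintro ⟨a, ha, rfl⟩
    rw [Finsupp.mem_support_iff, rst_C, y.rstFun_res h1 h2 ha]
    exact Finsupp.mem_support_iff.1 ha

theorem rst_le (y : LL (Dsc Z z₀)) (J' : Finset ℕ) (h1 : J' ⊆ y.J) (h2 : J'.Nonempty) :
    y.rst J' h1 h2 ≤ y := by
  refine ⟨h1, ?_, ?_⟩
  · intro a ha
    exact Dsc.le_iff.2 (y.rstFun_res h1 h2 ha)
  · intro b hb
    exact mem_rst.1 hb

theorem rst_le_rst (y : LL (Dsc Z z₀)) {J' J'' : Finset ℕ} (h1 : J' ⊆ y.J) (h2 : J'.Nonempty)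
    (h3 : J'' ⊆ y.J) (h4 : J''.Nonempty) (h : J' ⊆ J'') :
    y.rst J' h1 h2 ≤ y.rst J'' h3 h4 := by
  refine ⟨h, ?_, ?_⟩
  · intro c hc
    obtain ⟨a, ha, rfl⟩ := mem_rst.1 hc
    have e : res J' (res J'' a) = res J' a := res_res h a
    apply Dsc.le_iff.2
    change y.rstFun J' (res J' (res J'' a)) = y.rstFun J'' (res J'' a)
    rw [e, y.rstFun_res h1 h2 ha, y.rstFun_res h3 h4 ha]
  · intro b hb
    obtain ⟨a, ha, rfl⟩ := mem_rst.1 hb
    exact ⟨res J'' a, mem_rst.2 ⟨a, ha, rfl⟩, res_res h a⟩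

/-- `x ≤ y` is the restriction of `y`. -/
theorem eq_rst {x y : LL (Dsc Z z₀)} (h : x ≤ y) : x = y.rst x.J h.1 x.ne := by
  refine ext' rfl ?_
  ext1 c
  rw [rst_C]
  by_cases hc : ∃ a ∈ y.C.support, res x.J a = c
  · obtain ⟨a, ha, rfl⟩ := hc
    rw [y.rstFun_res h.1 x.ne ha]
    exact lb_eq h ha
  · rw [y.rstFun_of_not hc]
    by_contra hne
    exact hc (exists_track h (Finsupp.mem_support_iff.2 hne))

theorem rst_self (y : LL (Dsc Z z₀)) (h1 : y.J ⊆ y.J) (h2 : y.J.Nonempty) :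
    y.rst y.J h1 h2 = y := (eq_rst (le_refl y)).symm

end LL

end Pool.Agent.SH
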